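import Mathlib
import Pool.Agent.Lib.MP_364315_al.Defs
import Pool.Agent.Lib.MP_364315_al.Fin

/-!
The Quillen negation monoid of the category of topological spaces is finite.
-/

set_option autoImplicit false

open CategoryTheory

universe u

namespace Pool.Agent.Results.MP_364315_al.FiniteMonoid

open Pool.Agent.Lib.MP_364315_al

theorem result :
    (Set.range fun (w : FreeMonoid Letter) (P : MorphismProperty TopCat.{u}) => act P w).Finite :=
  finite_act

end Pool.Agent.Results.MP_364315_al.FiniteMonoid
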