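import Mathlib
import Pool.Agent.Lib.MP_364315_al.Defs
import Pool.Agent.Lib.MP_364315_al.Fin

/-!
The extra relations between powers of one letter in the Quillen negation monoid of the category of
topological spaces.
-/

set_option autoImplicit false

open CategoryTheory

universe u

namespace Pool.Agent.Results.MP_364315_al.OneLetter

open Pool.Agent.Lib.MP_364315_al

theorem result (x : Letter) (m n : ℕ) :
    (PresentedMonoid.mk rels (FreeMonoid.of x ^ m) ≠
        PresentedMonoid.mk rels (FreeMonoid.of x ^ n) ∧
      ∀ P : MorphismProperty TopCat.{u},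
        act P (FreeMonoid.of x ^ m) = act P (FreeMonoid.of x ^ n)) ↔
      m ≠ n ∧ 6 ≤ m ∧ 6 ≤ n ∧ m % 2 = n % 2 := by
  rw [one_letter, (pow_inj x).ne_iff]
  tauto

end Pool.Agent.Results.MP_364315_al.OneLetter
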